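import Pool.Agent.V1181.WCO7

/-!
# MP_fcbc3e_an: a hypercyclic (hence supercyclic) composition operator on smooth functions which is
not chaotic
-/

set_option autoImplicit false

namespace Pool.Agent.Results.MP_fcbc3e_an.HypercyclicNotChaotic

open Pool.Agent.V1181.WCO

/-- **Answer to Q1 (disproved).** For `𝕂 = ℝ` or `ℂ` and every `d ≥ 3` there are a nonempty open set
`Ω ⊆ ℝ^d`, a smooth weight `ω : Ω → 𝕂` (in fact `ω = 1`) and a smooth map `ψ : Ω → Ω` such that the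
(weighted) composition operator `f ↦ ω · (f ∘ ψ)` is supercyclic (even hypercyclic) on
`C^∞(Ω, 𝕂)` but not chaotic; its periodic points are not even dense. -/
theorem result (𝕂 : Type) [RCLike 𝕂] (d : ℕ) (hd : 3 ≤ d) :
    ∃ (Ω : Set (EuclideanSpace ℝ (Fin d))) (ω : EuclideanSpace ℝ (Fin d) → 𝕂)
      (ψ : EuclideanSpace ℝ (Fin d) → EuclideanSpace ℝ (Fin d)),
      IsOpen Ω ∧ Ω.Nonempty ∧ (∀ x, ω x = 1) ∧ ContDiffOn ℝ (⊤ : ℕ∞) ω Ω ∧
        ContDiffOn ℝ (⊤ : ℕ∞) ψ Ω ∧ Set.MapsTo ψ Ω Ω ∧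
        Supercyclic Ω ω ψ ∧ Hypercyclic Ω ω ψ ∧ ¬ DensePeriodic Ω ω ψ ∧ ¬ Chaotic Ω ω ψ := by
  obtain ⟨k, rfl⟩ : ∃ k, d = k + 3 := ⟨d - 3, by omega⟩
  have hω : ContDiffOn ℝ (⊤ : ℕ∞) (fun _ : EuclideanSpace ℝ (Fin (k + 3)) => (1 : 𝕂)) (Dom k) :=
    contDiffOn_const
  have hhyp : Hypercyclic (Dom k) (fun _ => (1 : 𝕂)) psi :=
    hypercyclic_of isOpen_dom maps_psi smooth_psi hω (fun _ _ => one_ne_zero)
      inj_psi.injOn (fun a ha v hv => dinj_psi ha hv) (fun K hK hKc => runaway hK hKc)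
  have htr : Transitive (Dom k) (fun _ => (1 : 𝕂)) psi := by
    intro f g hf hg L hL hLc m ε hε
    obtain ⟨L', hL', hLL', hL'Ω⟩ := cpt_nhd isOpen_dom hLc hL
    obtain ⟨χ, hχ, hc, hsup, hone⟩ := cutoff hLc hL' hLL'
    obtain ⟨n, hn⟩ := runaway hL'Ω hL'
    obtain ⟨p, hp, hpz, hp0⟩ := piece isOpen_dom maps_psi smooth_psi hω
      (fun _ _ => one_ne_zero) inj_psi.injOn (fun a ha v hv => dinj_psi ha hv) n hg hχ hc
      (hsup.trans hL'Ω)
    have hpL : ∀ x ∈ L', p x = 0 := by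
      intro x hx
      refine hp0 x ?_
      rintro ⟨z, hz, rfl⟩
      exact hn z (hsup hz) hx
    refine ⟨n, fun x => (χ x : 𝕂) * f x + p x, ?_, ?_, ?_⟩
    · refine ContDiffOn.add (ContDiffOn.mul ?_ hf) hp.contDiffOn
      exact ((RCLike.ofRealCLM : ℝ →L[ℝ] 𝕂).contDiff.comp hχ).contDiffOn
    · refine near_of_eventuallyEq hε fun x hx => ?_
      filter_upwards [hone x hx, isOpen_interior.mem_nhds (hLL' hx)] with y h1 h2
      rw [h1, hpL y (interior_subset h2)]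
      simp
    · refine near_of_eventuallyEq hε fun x hx => ?_
      filter_upwards [hone x hx, isOpen_interior.mem_nhds (hLL' hx)] with y h1 h2
      have hy : y ∈ L' := interior_subset h2
      have hyΩ := hL'Ω hy
      rw [iter_eq, hpz y hyΩ, h1, image_eq_zero_of_notMem_tsupport
        (fun h => hn y hy (hsup h))]
      have := W_ne (ω := fun _ => (1 : 𝕂)) maps_psi (fun _ _ => one_ne_zero) n hyΩ
      simp only [map_zero, zero_mul, zero_add, map_one, one_mul]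
      field_simp
  have hnd : ¬ DensePeriodic (Dom k) (fun _ => (1 : 𝕂)) psi := by
    intro hd
    obtain ⟨K, hK, hKc, hn⟩ := not_strong (d := k)
    obtain ⟨n₀, hn₀⟩ := strong_runaway isOpen_dom maps_psi smooth_psi hω htr hd hK hKc
    obtain ⟨n, hnn, x, hx, hx'⟩ := hn n₀
    exact hn₀ n hnn x hx hx'
  refine ⟨Dom k, fun _ => 1, psi, isOpen_dom, ⟨EuclideanSpace.single 0 1, ?_⟩, fun _ => rfl, hω,
    smooth_psi, maps_psi, hhyp.supercyclic, hhyp, hnd, fun h => hnd h.2⟩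
  show (_ : ℝ) ^ 2 + (_ : ℝ) ^ 2 ≠ 0
  simp [f01.symm]

end Pool.Agent.Results.MP_fcbc3e_an.HypercyclicNotChaotic
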